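import Pool.Agent.P8H82.FF.Stm
import Pool.Agent.P8H60.JG.Eul

/-!
# Project FF, package EULX: the core, for an arbitrary finite set in the place of the primes above two
-/

set_option autoImplicit false

namespace Pool.Agent.P8H53.FF

open NumberField Ideal IsDedekindDomain Filter Topology UniqueFactorizationMonoid
open Pool.Agent.P8H82.JG Pool.Agent.P8H60.JG
open Pool.Agent.P8H82.FF (dx dX dn)

variable {K : Type} [Field K] [NumberField K]

/-- the sum of a product of local functions over the ideals supported on a finite set -/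
lemma sum_gen (f : HeightOneSpectrum (𝓞 K) → ℕ → ℝ) (s : HeightOneSpectrum (𝓞 K) → ℝ)
    (hf0 : ∀ P e, 0 ≤ f P e) (hf : ∀ P, HasSum (f P) (s P)) (Z : Finset (HeightOneSpectrum (𝓞 K))) :
    HasSum ((AZ Z).indicator (fun w : Ideal (𝓞 K) => ∏ P ∈ Z, f P (ord P w))) (∏ P ∈ Z, s P) := by
  classical
  induction Z using Finset.induction_on with
  | empty =>
    rw [Finset.prod_empty]
    have h1 : ((⊤ : Ideal (𝓞 K))) ∈ AZ (∅ : Finset (HeightOneSpectrum (𝓞 K))) := by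
      refine ⟨top_ne_bot, fun P hP => ?_⟩
      exact absurd (top_le_iff.1 hP) P.isPrime.ne_top
    have h3 : ∀ w : Ideal (𝓞 K), w ≠ ⊤ → (AZ (∅ : Finset (HeightOneSpectrum (𝓞 K)))).indicator
        (fun w : Ideal (𝓞 K) => ∏ P ∈ (∅ : Finset (HeightOneSpectrum (𝓞 K))), f P (ord P w)) w = 0 := by
      intro w hw
      apply Set.indicator_of_notMem
      rintro ⟨h4, h5⟩
      obtain ⟨M, hM, hwM⟩ := Ideal.exists_le_maximal w hw
      have hM0 : M ≠ ⊥ := fun h => h4 (le_bot_iff.1 (h ▸ hwM))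
      exact absurd (h5 ⟨M, hM.isPrime, hM0⟩ hwM) (Finset.notMem_empty _)
    have h4 := hasSum_single (f := (AZ (∅ : Finset (HeightOneSpectrum (𝓞 K)))).indicator
      (fun w : Ideal (𝓞 K) => ∏ P ∈ (∅ : Finset (HeightOneSpectrum (𝓞 K))), f P (ord P w))) ⊤ h3
    rwa [Set.indicator_of_mem h1, Finset.prod_empty] at h4
  | insert P Z hP ih =>
    rw [Finset.prod_insert hP]
    rw [← hasSum_subtype_iff_indicator] at ih
    have h1 := hf P
    have h2 : Summable fun x : ℕ × (AZ Z) => f P x.1 *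
        ((fun w : Ideal (𝓞 K) => ∏ P ∈ Z, f P (ord P w)) ∘ (↑)) x.2 := by
      refine h1.summable.mul_of_nonneg ih.summable (fun e => hf0 P e) fun w => ?_
      exact Finset.prod_nonneg fun P _ => hf0 P _
    have h3 := h1.mul ih h2
    set ψ : ℕ × (AZ Z) → Ideal (𝓞 K) := fun x => P.asIdeal ^ x.1 * (x.2 : Ideal (𝓞 K)) with hψ
    have ordψ : ∀ x, ord P (ψ x) = x.1 := by
      intro x
      simp only [hψ]
      rw [ord_mul_pow P P x.2.2.1, if_pos rfl,
        (ord_eq_zero_iff P x.2.2.1).2 (fun h => hP (x.2.2.2 P h)), add_zero]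
    have ordψ' : ∀ x, ∀ P' ∈ Z, ord P' (ψ x) = ord P' (x.2 : Ideal (𝓞 K)) := by
      intro x P' hP'
      simp only [hψ]
      rw [ord_mul_pow P' P x.2.2.1, if_neg (fun h : P' = P => hP (h ▸ hP')), zero_add]
    have hinj : Function.Injective ψ := by
      intro x y hxy
      have e1 : x.1 = y.1 := by rw [← ordψ x, ← ordψ y, hxy]
      have e2 : P.asIdeal ^ x.1 * (x.2 : Ideal (𝓞 K)) = P.asIdeal ^ x.1 * (y.2 : Ideal (𝓞 K)) := by
        have : P.asIdeal ^ x.1 * (x.2 : Ideal (𝓞 K)) = P.asIdeal ^ y.1 * (y.2 : Ideal (𝓞 K)) := hxy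
        rwa [← e1] at this
      have e3 := mul_left_cancel₀ (pow_ne_zero x.1 P.ne_bot) e2
      exact Prod.ext e1 (Subtype.ext e3)
    have hrange : ∀ w : Ideal (𝓞 K), w ∉ Set.range ψ → (AZ (insert P Z)).indicator
        (fun w : Ideal (𝓞 K) => ∏ P ∈ insert P Z, f P (ord P w)) w = 0 := by
      intro w hw
      apply Set.indicator_of_notMem
      intro h4
      apply hw
      have h5 := prod_ord h4.1 _ h4.2
      rw [Finset.prod_insert hP] at h5
      refine ⟨(ord P w, ⟨∏ P' ∈ Z, P'.asIdeal ^ ord P' w, ?_, ?_⟩), h5⟩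
      · exact Finset.prod_ne_zero_iff.2 fun P' _ => pow_ne_zero _ P'.ne_bot
      · intro P'' hP''
        rw [P''.isPrime.prod_le] at hP''
        obtain ⟨P', hP', h6⟩ := hP''
        have h7 := P''.isPrime.le_of_pow_le h6
        have h8 : P' = P'' := HeightOneSpectrum.ext (P'.isMaximal.eq_of_le P''.isPrime.ne_top h7)
        rwa [← h8]
    rw [← hinj.hasSum_iff hrange]
    have e : ((AZ (insert P Z)).indicator
        (fun w : Ideal (𝓞 K) => ∏ P ∈ insert P Z, f P (ord P w))) ∘ ψ =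
        fun x : ℕ × (AZ Z) => f P x.1 *
          ((fun w : Ideal (𝓞 K) => ∏ P ∈ Z, f P (ord P w)) ∘ (↑)) x.2 := by
      funext x
      show (AZ (insert P Z)).indicator (fun w : Ideal (𝓞 K) => ∏ P ∈ insert P Z, f P (ord P w))
        (ψ x) = f P x.1 * ∏ P ∈ Z, f P (ord P (x.2 : Ideal (𝓞 K)))
      rw [Set.indicator_of_mem (mem_insert_of x.2.2 x.1), Finset.prod_insert hP, ordψ x]
      congr 1
      exact Finset.prod_congr rfl fun P' hP' => by rw [ordψ' x P' hP']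
    rw [e]
    exact h3

/-! ## The local sums -/

lemma pow_two_thirds {q : ℝ} (hq : 2 ≤ q) (e : ℕ) :
    (q ^ e) ^ ((2 : ℝ) / 3) = (q ^ (-(1 : ℝ) / 3)) ^ e * q ^ e := by
  have hq0 : 0 < q := by linarith
  have h1 : (0 : ℝ) < q ^ e := by positivity
  rw [Real.rpow_pow_comm hq0.le]
  nth_rewrite 3 [← Real.rpow_one (q ^ e)]
  rw [← Real.rpow_add h1]
  norm_num

lemma one_div_q {q : ℝ} (hq : 2 ≤ q) : 1 / q = (q ^ (-(1 : ℝ) / 3)) ^ 3 := by
  obtain ⟨h0, h1, h3⟩ := xq hq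
  field_simp
  linarith

lemma dx_sum {q : ℝ} (hq : 2 ≤ q) : HasSum (fun e : ℕ => (q ^ e) ^ ((2 : ℝ) / 3) * dx q e)
    ((1 - 1 / q) * (1 + q ^ (-(1 : ℝ) / 3)) ^ 3) := by
  obtain ⟨h0, h1, h3⟩ := xq hq
  have hd := one_div_q hq
  have hp := fun e => pow_two_thirds hq e
  have hq0 : 0 < q := by linarith
  set x := q ^ (-(1 : ℝ) / 3) with hx
  have h2 : ∀ e : ℕ, (q ^ (e + 1)) ^ ((2 : ℝ) / 3) * dx q (e + 1) =
      3 * (1 - 1 / q) ^ 2 * x * x ^ e := by
    intro e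
    unfold dx
    rw [if_neg (by omega), hp]
    have h4 : (0 : ℝ) < q ^ (e + 1) := by positivity
    rw [pow_succ x e]
    field_simp
  have h3' : HasSum (fun e : ℕ => (q ^ (e + 1)) ^ ((2 : ℝ) / 3) * dx q (e + 1))
      (3 * (1 - 1 / q) ^ 2 * x * (1 - x)⁻¹) := by
    simp_rw [h2]
    exact (hasSum_geometric_of_lt_one h0.le h1).mul_left _
  have h4 := (hasSum_nat_add_iff (f := fun e : ℕ => (q ^ e) ^ ((2 : ℝ) / 3) * dx q e) 1).1 h3'
  rw [Finset.sum_range_one] at h4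
  have h5 : (q ^ 0) ^ ((2 : ℝ) / 3) * dx q 0 = (1 - 1 / q) * (1 - 2 / q) := by
    unfold dx
    rw [if_pos rfl, pow_zero, Real.one_rpow, one_mul]
  rw [h5] at h4
  have e : (1 - 1 / q) * (1 + x) ^ 3 =
      3 * (1 - 1 / q) ^ 2 * x * (1 - x)⁻¹ + (1 - 1 / q) * (1 - 2 / q) := by
    have h6 : 2 / q = 2 * x ^ 3 := by rw [← hd]; ring
    rw [h6, hd]
    have h7 : 1 - x ≠ 0 := by linarith
    field_simp
    ring
  rw [e]
  exact h4

lemma dl_sum {q : ℝ} (hq : 2 ≤ q) : HasSum (fun e : ℕ => (q ^ e) ^ ((2 : ℝ) / 3) * dl q e)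
    ((1 - 1 / q) * (1 + 1 / q + 3 * q ^ (-(4 : ℝ) / 3) + 3 * q ^ (-(5 : ℝ) / 3))) := by
  obtain ⟨h0, h1, h3⟩ := xq hq
  have e4 : q ^ (-(4 : ℝ) / 3) = (q ^ (-(1 : ℝ) / 3)) ^ 4 := by
    rw [← Real.rpow_natCast, ← Real.rpow_mul (by linarith)]
    norm_num
  have e5 : q ^ (-(5 : ℝ) / 3) = (q ^ (-(1 : ℝ) / 3)) ^ 5 := by
    rw [← Real.rpow_natCast, ← Real.rpow_mul (by linarith)]
    norm_num
  rw [e4, e5]
  have hd := one_div_q hq
  have hp := fun e => pow_two_thirds hq e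
  have hq0 : 0 < q := by linarith
  set x := q ^ (-(1 : ℝ) / 3) with hx
  have h2 : ∀ e : ℕ, (q ^ (e + 1)) ^ ((2 : ℝ) / 3) * dl q (e + 1) =
      3 * (1 - 1 / q) ^ 2 * (1 / q) * x * x ^ e := by
    intro e
    unfold dl
    rw [if_neg (by omega), hp]
    have h4 : (0 : ℝ) < q ^ (e + 1) := by positivity
    rw [pow_succ x e, pow_succ q (e + 1)]
    field_simp
  have h3' : HasSum (fun e : ℕ => (q ^ (e + 1)) ^ ((2 : ℝ) / 3) * dl q (e + 1))
      (3 * (1 - 1 / q) ^ 2 * (1 / q) * x * (1 - x)⁻¹) := by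
    simp_rw [h2]
    exact (hasSum_geometric_of_lt_one h0.le h1).mul_left _
  have h4 := (hasSum_nat_add_iff (f := fun e : ℕ => (q ^ e) ^ ((2 : ℝ) / 3) * dl q e) 1).1 h3'
  rw [Finset.sum_range_one] at h4
  have h5 : (q ^ 0) ^ ((2 : ℝ) / 3) * dl q 0 = 1 - 4 / q ^ 2 + 3 / q ^ 3 := by
    rw [pow_zero, Real.one_rpow, one_mul, dl_zero]
  rw [h5] at h4
  have e : (1 - 1 / q) * (1 + 1 / q + 3 * x ^ 4 + 3 * x ^ 5) =
      3 * (1 - 1 / q) ^ 2 * (1 / q) * x * (1 - x)⁻¹ + (1 - 4 / q ^ 2 + 3 / q ^ 3) := by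
    have h6 : 4 / q ^ 2 = 4 * (x ^ 3) ^ 2 := by rw [← hd]; ring
    have h8 : 3 / q ^ 3 = 3 * (x ^ 3) ^ 3 := by rw [← hd]; ring
    rw [h6, h8, hd]
    have h7 : 1 - x ≠ 0 := by linarith
    field_simp
    ring
  rw [e]
  exact h4

lemma dx_nonneg {q : ℝ} (hq : 2 ≤ q) (e : ℕ) : 0 ≤ dx q e := by
  unfold dx
  have hq0 : 0 < q := by linarith
  have h1 : 1 / q ≤ 1 := by rw [div_le_one hq0]; linarith
  have h2 : 2 / q ≤ 1 := by rw [div_le_one hq0]; linarith
  split_ifs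
  · exact mul_nonneg (by linarith) (by linarith)
  · positivity

lemma dl_nonneg {q : ℝ} (hq : 2 ≤ q) (e : ℕ) : 0 ≤ dl q e := by
  by_cases he : e = 0
  · rw [he]
    exact (dl_zero_pos hq).le
  · unfold dl
    rw [if_neg he]
    have hq0 : 0 < q := by linarith
    positivity

/-! ## The weights -/

/-- the weight -/
noncomputable def wtc (T₂ : Finset (HeightOneSpectrum (𝓞 K)))
    (i : Finset (HeightOneSpectrum (𝓞 K)) × Ideal (𝓞 K)) : ℝ :=
  open Classical in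
  if (∃ P ∈ i.1, P ∈ T₂) ∨ i.2 = ⊥ then 0 else
    (∏ P ∈ i.1, nP P) ^ (-(4 : ℝ) / 3) * (Ideal.absNorm i.2 : ℝ) ^ ((2 : ℝ) / 3) * dn (i.1 ∪ T₂) i.2

/-- the local factor at the primes in `D` -/
noncomputable def uu (T₂ : Finset (HeightOneSpectrum (𝓞 K))) (P : HeightOneSpectrum (𝓞 K))
    (e : ℕ) : ℝ :=
  open Classical in
  if P ∈ T₂ then 0 else
    nP P ^ (-(4 : ℝ) / 3) * ((nP P ^ e) ^ ((2 : ℝ) / 3) * dx (nP P) e) / dl (nP P) 0

/-- the local factor at the other primes -/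
noncomputable def vv (T₂ : Finset (HeightOneSpectrum (𝓞 K))) (P : HeightOneSpectrum (𝓞 K))
    (e : ℕ) : ℝ :=
  open Classical in
  if P ∈ T₂ then ((nP P ^ e) ^ ((2 : ℝ) / 3) * dx (nP P) e) / dl (nP P) 0 else
    ((nP P ^ e) ^ ((2 : ℝ) / 3) * dl (nP P) e) / dl (nP P) 0

/-- the sum of the local factors -/
noncomputable def ua (T₂ : Finset (HeightOneSpectrum (𝓞 K))) (P : HeightOneSpectrum (𝓞 K)) : ℝ :=
  open Classical in
  if P ∈ T₂ then 0 else
    nP P ^ (-(4 : ℝ) / 3) * ((1 - 1 / nP P) * (1 + nP P ^ (-(1 : ℝ) / 3)) ^ 3) / dl (nP P) 0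

/-- the sum of the local factors -/
noncomputable def va (T₂ : Finset (HeightOneSpectrum (𝓞 K))) (P : HeightOneSpectrum (𝓞 K)) : ℝ :=
  open Classical in
  if P ∈ T₂ then ((1 - 1 / nP P) * (1 + nP P ^ (-(1 : ℝ) / 3)) ^ 3) / dl (nP P) 0 else
    ((1 - 1 / nP P) * (1 + 1 / nP P + 3 * nP P ^ (-(4 : ℝ) / 3) + 3 * nP P ^ (-(5 : ℝ) / 3))) /
      dl (nP P) 0

lemma uu_nonneg (T₂ : Finset (HeightOneSpectrum (𝓞 K))) (P : HeightOneSpectrum (𝓞 K)) (e : ℕ) :
    0 ≤ uu T₂ P e := by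
  unfold uu
  have hq := two_le_nP P
  have h1 := dx_nonneg hq e
  have h2 := dl_zero_pos hq
  split_ifs <;> positivity

lemma vv_nonneg (T₂ : Finset (HeightOneSpectrum (𝓞 K))) (P : HeightOneSpectrum (𝓞 K)) (e : ℕ) :
    0 ≤ vv T₂ P e := by
  unfold vv
  have hq := two_le_nP P
  have h1 := dx_nonneg hq e
  have h3 := dl_nonneg hq e
  have h2 := dl_zero_pos hq
  split_ifs <;> positivity

lemma uu_sum (T₂ : Finset (HeightOneSpectrum (𝓞 K))) (P : HeightOneSpectrum (𝓞 K)) :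
    HasSum (uu T₂ P) (ua T₂ P) := by
  classical
  have hq := two_le_nP P
  by_cases h : P ∈ T₂
  · have e1 : uu T₂ P = fun _ => 0 := by funext e; unfold uu; rw [if_pos h]
    have e2 : ua T₂ P = 0 := by unfold ua; rw [if_pos h]
    rw [e1, e2]
    exact hasSum_zero
  · have e1 : uu T₂ P = fun e =>
        nP P ^ (-(4 : ℝ) / 3) * ((nP P ^ e) ^ ((2 : ℝ) / 3) * dx (nP P) e) / dl (nP P) 0 := by
      funext e; unfold uu; rw [if_neg h]
    have e2 : ua T₂ P = nP P ^ (-(4 : ℝ) / 3) *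
        ((1 - 1 / nP P) * (1 + nP P ^ (-(1 : ℝ) / 3)) ^ 3) / dl (nP P) 0 := by
      unfold ua; rw [if_neg h]
    rw [e1, e2]
    exact ((dx_sum hq).mul_left _).div_const _

lemma vv_sum (T₂ : Finset (HeightOneSpectrum (𝓞 K))) (P : HeightOneSpectrum (𝓞 K)) :
    HasSum (vv T₂ P) (va T₂ P) := by
  classical
  have hq := two_le_nP P
  by_cases h : P ∈ T₂
  · have e1 : vv T₂ P = fun e => ((nP P ^ e) ^ ((2 : ℝ) / 3) * dx (nP P) e) / dl (nP P) 0 := by
      funext e; unfold vv; rw [if_pos h]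
    have e2 : va T₂ P = ((1 - 1 / nP P) * (1 + nP P ^ (-(1 : ℝ) / 3)) ^ 3) / dl (nP P) 0 := by
      unfold va; rw [if_pos h]
    rw [e1, e2]
    exact (dx_sum hq).div_const _
  · have e1 : vv T₂ P = fun e => ((nP P ^ e) ^ ((2 : ℝ) / 3) * dl (nP P) e) / dl (nP P) 0 := by
      funext e; unfold vv; rw [if_neg h]
    have e2 : va T₂ P = ((1 - 1 / nP P) *
        (1 + 1 / nP P + 3 * nP P ^ (-(4 : ℝ) / 3) + 3 * nP P ^ (-(5 : ℝ) / 3))) / dl (nP P) 0 := by
      unfold va; rw [if_neg h]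
    rw [e1, e2]
    exact (dl_sum hq).div_const _

/-- the local factor of the types with the set `D` -/
noncomputable def LF (T₂ D : Finset (HeightOneSpectrum (𝓞 K))) (P : HeightOneSpectrum (𝓞 K))
    (e : ℕ) : ℝ :=
  open Classical in if P ∈ D then uu T₂ P e else vv T₂ P e

/-- the weight as a product -/
lemma wtc_eq (T₂ D Z : Finset (HeightOneSpectrum (𝓞 K))) (w : Ideal (𝓞 K)) (hT : T₂ ⊆ Z)
    (hD : D ⊆ Z) (hw : w ∈ AZ Z) :
    wtc T₂ (D, w) = c0 K * ∏ P ∈ Z, LF T₂ D P (ord P w) := by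
  classical
  by_cases h : ∃ P ∈ D, P ∈ T₂
  · obtain ⟨P, hP, hP2⟩ := h
    have e1 : wtc T₂ (D, w) = 0 := by
      unfold wtc
      rw [if_pos (Or.inl ⟨P, hP, hP2⟩)]
    have e2 : ∏ P ∈ Z, LF T₂ D P (ord P w) = 0 := by
      refine Finset.prod_eq_zero (hD hP) ?_
      unfold LF uu
      rw [if_pos hP, if_pos hP2]
    rw [e1, e2, mul_zero]
  · have e1 : wtc T₂ (D, w) = (∏ P ∈ D, nP P) ^ (-(4 : ℝ) / 3) *
        (Ideal.absNorm w : ℝ) ^ ((2 : ℝ) / 3) * dn (D ∪ T₂) w := by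
      unfold wtc
      rw [if_neg]
      rintro (h1 | h1)
      · exact h h1
      · exact hw.1 h1
    have a1 : (∏ P ∈ D, nP P) ^ (-(4 : ℝ) / 3) =
        ∏ P ∈ Z, if P ∈ D then nP P ^ (-(4 : ℝ) / 3) else 1 := by
      rw [Finset.prod_ite_mem, Finset.inter_eq_right.2 hD]
      exact (Real.finsetProd_rpow D _ (fun P _ => by have := two_le_nP P; positivity) _).symm
    have a2 : (Ideal.absNorm w : ℝ) ^ ((2 : ℝ) / 3) = ∏ P ∈ Z, (nP P ^ ord P w) ^ ((2 : ℝ) / 3) := by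
      rw [norm_prod hw.1 Z hw.2]
      exact (Real.finsetProd_rpow Z _ (fun P _ => by have := two_le_nP P; positivity) _).symm
    have a3 : dn (D ∪ T₂) w = c0 K * ∏ P ∈ Z, (dX (D ∪ T₂) P (ord P w) / dl (nP P) 0) := by
      unfold dn
      congr 1
      have h2 : ∀ P : HeightOneSpectrum (𝓞 K), ¬ (P ∈ D ∪ T₂ ∨ w ≤ P.asIdeal) →
          dX (D ∪ T₂) P (ord P w) / dl (nP P) 0 = 1 := by
        intro P hP
        rw [not_or] at hP
        unfold dX
        rw [if_neg hP.1, (ord_eq_zero_iff P hw.1).2 hP.2]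
        exact div_self (dl_zero_pos (two_le_nP P)).ne'
      have h3 : ∀ P : HeightOneSpectrum (𝓞 K), (∏ᶠ (_ : P ∈ D ∪ T₂ ∨ w ≤ P.asIdeal),
          (dX (D ∪ T₂) P (ord P w) / dl (nP P) 0)) = dX (D ∪ T₂) P (ord P w) / dl (nP P) 0 := by
        intro P
        by_cases hP : P ∈ D ∪ T₂ ∨ w ≤ P.asIdeal
        · rw [finprod_eq_if, if_pos hP]
        · rw [finprod_eq_if, if_neg hP, h2 P hP]
      rw [finprod_congr h3]
      apply finprod_eq_prod_of_mulSupport_subset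
      intro P hP
      rw [Function.mem_mulSupport] at hP
      rw [Finset.mem_coe]
      by_contra h4
      apply hP
      refine h2 P ?_
      rintro (h5 | h5)
      · rw [Finset.mem_union] at h5
        exact h4 (h5.elim (fun h6 => hD h6) (fun h6 => hT h6))
      · exact h4 (hw.2 P h5)
    have e2 : ∀ P : HeightOneSpectrum (𝓞 K), LF T₂ D P (ord P w) =
        (if P ∈ D then nP P ^ (-(4 : ℝ) / 3) else 1) * (nP P ^ ord P w) ^ ((2 : ℝ) / 3) *
          (dX (D ∪ T₂) P (ord P w) / dl (nP P) 0) := by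
      intro P
      unfold LF uu vv dX
      by_cases hPD : P ∈ D
      · have hPT : P ∉ T₂ := fun h1 => h ⟨P, hPD, h1⟩
        rw [if_pos hPD, if_neg hPT, if_pos hPD, if_pos (Finset.mem_union_left _ hPD)]
        ring
      · by_cases hPT : P ∈ T₂
        · rw [if_neg hPD, if_pos hPT, if_neg hPD, if_pos (Finset.mem_union_right _ hPT)]
          ring
        · rw [if_neg hPD, if_neg hPT, if_neg hPD, if_neg (by
            rw [Finset.mem_union]
            exact fun h1 => h1.elim hPD hPT)]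
          ring
    rw [e1, a1, a2, a3]
    simp_rw [e2]
    rw [Finset.prod_mul_distrib, Finset.prod_mul_distrib]
    ring

/-- the types supported on `Z` -/
def BZ (Z : Finset (HeightOneSpectrum (𝓞 K))) :
    Set (Finset (HeightOneSpectrum (𝓞 K)) × Ideal (𝓞 K)) :=
  {i | i.1 ⊆ Z ∧ i.2 ∈ AZ Z}

lemma sum_BZ (T₂ Z : Finset (HeightOneSpectrum (𝓞 K))) :
    HasSum ((BZ Z).indicator fun i => ∏ P ∈ Z, LF T₂ i.1 P (ord P i.2))
      (∏ P ∈ Z, (ua T₂ P + va T₂ P)) := by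
  classical
  have h1 : ∀ D : Finset (HeightOneSpectrum (𝓞 K)), HasSum
      (fun i : Finset (HeightOneSpectrum (𝓞 K)) × Ideal (𝓞 K) => if i.1 = D then
        (AZ Z).indicator (fun w : Ideal (𝓞 K) => ∏ P ∈ Z, LF T₂ D P (ord P w)) i.2 else 0)
      (∏ P ∈ Z, if P ∈ D then ua T₂ P else va T₂ P) := by
    intro D
    have h2 := sum_gen (LF T₂ D) (fun P => if P ∈ D then ua T₂ P else va T₂ P) (fun P e => by
        unfold LF
        split_ifs
        · exact uu_nonneg _ _ _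
        · exact vv_nonneg _ _ _) (fun P => by
        by_cases hP : P ∈ D
        · have : LF T₂ D P = uu T₂ P := by funext e; unfold LF; rw [if_pos hP]
          rw [this, if_pos hP]
          exact uu_sum _ _
        · have : LF T₂ D P = vv T₂ P := by funext e; unfold LF; rw [if_neg hP]
          rw [this, if_neg hP]
          exact vv_sum _ _) Z
    have hinj : Function.Injective (fun w : Ideal (𝓞 K) => (D, w)) :=
      fun w w' h => (Prod.ext_iff.1 h).2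
    rw [← hinj.hasSum_iff]
    · refine (congrArg (fun g => HasSum g _) (funext fun w => ?_)).mpr h2
      show (if D = D then _ else 0) = _
      rw [if_pos rfl]
    · intro i hi
      rw [if_neg]
      intro h3
      exact hi ⟨i.2, Prod.ext h3.symm rfl⟩
  have h2 := hasSum_sum (s := Z.powerset) fun D _ => h1 D
  have e1 : (fun i : Finset (HeightOneSpectrum (𝓞 K)) × Ideal (𝓞 K) => ∑ D ∈ Z.powerset,
      if i.1 = D then
        (AZ Z).indicator (fun w : Ideal (𝓞 K) => ∏ P ∈ Z, LF T₂ D P (ord P w)) i.2 else 0) =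
      (BZ Z).indicator fun i => ∏ P ∈ Z, LF T₂ i.1 P (ord P i.2) := by
    funext i
    rw [Finset.sum_ite_eq]
    by_cases hi : i.1 ⊆ Z
    · rw [if_pos (Finset.mem_powerset.2 hi)]
      by_cases hi2 : i.2 ∈ AZ Z
      · rw [Set.indicator_of_mem hi2, Set.indicator_of_mem (show i ∈ BZ Z from ⟨hi, hi2⟩)]
      · rw [Set.indicator_of_notMem hi2, Set.indicator_of_notMem (fun h3 => hi2 h3.2)]
    · rw [if_neg (fun h3 => hi (Finset.mem_powerset.1 h3)),
        Set.indicator_of_notMem (fun h3 => hi h3.1)]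
  have e2 : (∑ D ∈ Z.powerset, ∏ P ∈ Z, if P ∈ D then ua T₂ P else va T₂ P) =
      ∏ P ∈ Z, (ua T₂ P + va T₂ P) := by
    rw [Finset.prod_add]
    refine Finset.sum_congr rfl fun D hD => ?_
    have hD' := Finset.mem_powerset.1 hD
    rw [Finset.prod_ite]
    congr 1
    · refine Finset.prod_congr ?_ fun _ _ => rfl
      rw [Finset.filter_mem_eq_inter, Finset.inter_eq_right.2 hD']
    · refine Finset.prod_congr ?_ fun _ _ => rfl
      rw [Finset.filter_notMem_eq_sdiff]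
  rw [e1, e2] at h2
  exact h2

/-- the local factor -/
lemma local_fac (T₂ : Finset (HeightOneSpectrum (𝓞 K))) (P : HeightOneSpectrum (𝓞 K)) :
    dl (nP P) 0 * (ua T₂ P + va T₂ P) = open Classical in (1 - 1 / nP P) *
    (if P ∈ T₂ then (1 + nP P ^ (-(1 : ℝ) / 3)) ^ 3 else
      1 + 1 / nP P + 4 * nP P ^ (-(4 : ℝ) / 3) + 6 * nP P ^ (-(5 : ℝ) / 3) + 3 / nP P ^ 2 +
        nP P ^ (-(7 : ℝ) / 3)) := by
  classical
  have hq := two_le_nP P
  have h0 := (dl_zero_pos hq).ne'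
  have hd := one_div_q hq
  unfold ua va
  set q := nP P with hqd
  by_cases h : P ∈ T₂
  · rw [if_pos h, if_pos h, if_pos h, zero_add, mul_div_cancel₀ _ h0]
  · rw [if_neg h, if_neg h, if_neg h, ← add_div, mul_div_cancel₀ _ h0]
    have e4 : q ^ (-(4 : ℝ) / 3) = (q ^ (-(1 : ℝ) / 3)) ^ 4 := by
      rw [← Real.rpow_natCast, ← Real.rpow_mul (by linarith)]
      norm_num
    have e5 : q ^ (-(5 : ℝ) / 3) = (q ^ (-(1 : ℝ) / 3)) ^ 5 := by
      rw [← Real.rpow_natCast, ← Real.rpow_mul (by linarith)]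
      norm_num
    have e7 : q ^ (-(7 : ℝ) / 3) = (q ^ (-(1 : ℝ) / 3)) ^ 7 := by
      rw [← Real.rpow_natCast, ← Real.rpow_mul (by linarith)]
      norm_num
    rw [e4, e5, e7]
    set x := q ^ (-(1 : ℝ) / 3) with hx
    have h6 : 3 / q ^ 2 = 3 * (x ^ 3) ^ 2 := by rw [← hd]; ring
    rw [h6, hd]
    ring

/-- the core of package EULX -/
theorem eulx_core (hc : S_C0) (T₂ : Finset (HeightOneSpectrum (𝓞 K))) (hs : Summable (wtc T₂)) :
    HasProd (fun P : HeightOneSpectrum (𝓞 K) => open Classical in (1 - 1 / nP P) *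
      (if P ∈ T₂ then (1 + nP P ^ (-(1 : ℝ) / 3)) ^ 3 else
        1 + 1 / nP P + 4 * nP P ^ (-(4 : ℝ) / 3) + 6 * nP P ^ (-(5 : ℝ) / 3) + 3 / nP P ^ 2 +
          nP P ^ (-(7 : ℝ) / 3))) (∑' i, wtc T₂ i) := by
  classical
  obtain ⟨hc0, h1, -⟩ := hc K
  have h2 : Tendsto (fun Z : Finset (HeightOneSpectrum (𝓞 K)) =>
      c0 K * ∏ P ∈ Z, (ua T₂ P + va T₂ P)) atTop (𝓝 (∑' i, wtc T₂ i)) := by
    have h3 : Tendsto (fun Z : Finset (HeightOneSpectrum (𝓞 K)) =>
        ∑' i, (BZ Z).indicator (wtc T₂) i) atTop (𝓝 (∑' i, wtc T₂ i)) := by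
      refine tendsto_tsum_of_dominated_convergence (bound := fun i => ‖wtc T₂ i‖) hs.norm
        (fun i => ?_) ?_
      · by_cases hw : i.2 = ⊥
        · refine tendsto_const_nhds.congr fun Z => ?_
          have e1 : wtc T₂ i = 0 := by
            unfold wtc
            rw [if_pos (Or.inr hw)]
          rw [e1, Set.indicator_of_notMem]
          exact fun h => h.2.1 hw
        · refine tendsto_const_nhds.congr' ?_
          filter_upwards [eventually_ge_atTop ((supp_finite hw).toFinset ∪ i.1)] with Z hZ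
          rw [Set.indicator_of_mem]
          refine ⟨fun P hP => hZ (Finset.mem_union_right _ hP), hw, fun P hP => hZ ?_⟩
          refine Finset.mem_union_left _ ?_
          rw [Set.Finite.mem_toFinset]
          exact hP
      · refine Eventually.of_forall fun Z i => ?_
        by_cases hi : i ∈ BZ Z
        · rw [Set.indicator_of_mem hi]
        · rw [Set.indicator_of_notMem hi, norm_zero]
          exact norm_nonneg _
    refine h3.congr' ?_
    filter_upwards [eventually_ge_atTop T₂] with Z hZ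
    have e1 : (BZ Z).indicator (wtc T₂) =
        fun i => c0 K * (BZ Z).indicator (fun i => ∏ P ∈ Z, LF T₂ i.1 P (ord P i.2)) i := by
      funext i
      by_cases hi : i ∈ BZ Z
      · rw [Set.indicator_of_mem hi, Set.indicator_of_mem hi]
        exact wtc_eq T₂ i.1 Z i.2 hZ hi.1 hi.2
      · rw [Set.indicator_of_notMem hi, Set.indicator_of_notMem hi, mul_zero]
    rw [e1]
    exact ((sum_BZ T₂ Z).mul_left (c0 K)).tsum_eq
  have h4 : Tendsto (fun Z : Finset (HeightOneSpectrum (𝓞 K)) => ((∏ P ∈ Z, dl (nP P) 0) / c0 K) *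
      (c0 K * ∏ P ∈ Z, (ua T₂ P + va T₂ P))) atTop (𝓝 ((c0 K / c0 K) * ∑' i, wtc T₂ i)) := by
    have h5 : Tendsto (fun Z : Finset (HeightOneSpectrum (𝓞 K)) => ∏ P ∈ Z, dl (nP P) 0) atTop
        (𝓝 (c0 K)) := by
      simpa [HasProd, SummationFilter.unconditional_filter] using h1
    exact (h5.div_const _).mul h2
  rw [div_self hc0.ne', one_mul] at h4
  have h6 : Tendsto (fun Z : Finset (HeightOneSpectrum (𝓞 K)) => ∏ P ∈ Z, ((1 - 1 / nP P) *
      (if P ∈ T₂ then (1 + nP P ^ (-(1 : ℝ) / 3)) ^ 3 else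
        1 + 1 / nP P + 4 * nP P ^ (-(4 : ℝ) / 3) + 6 * nP P ^ (-(5 : ℝ) / 3) + 3 / nP P ^ 2 +
          nP P ^ (-(7 : ℝ) / 3)))) atTop (𝓝 (∑' i, wtc T₂ i)) := by
    refine h4.congr fun Z => ?_
    have e1 : (∏ P ∈ Z, dl (nP P) 0) / c0 K * (c0 K * ∏ P ∈ Z, (ua T₂ P + va T₂ P)) =
        (∏ P ∈ Z, dl (nP P) 0) * ∏ P ∈ Z, (ua T₂ P + va T₂ P) := by
      field_simp
    rw [e1, ← Finset.prod_mul_distrib]
    refine Finset.prod_congr rfl fun P _ => ?_
    rw [local_fac]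
  have h7 : HasProd (fun P : HeightOneSpectrum (𝓞 K) => (1 - 1 / nP P) *
      (if P ∈ T₂ then (1 + nP P ^ (-(1 : ℝ) / 3)) ^ 3 else
        1 + 1 / nP P + 4 * nP P ^ (-(4 : ℝ) / 3) + 6 * nP P ^ (-(5 : ℝ) / 3) + 3 / nP P ^ 2 +
          nP P ^ (-(7 : ℝ) / 3))) (∑' i, wtc T₂ i) := by
    simpa only [HasProd, SummationFilter.unconditional_filter] using h6
  convert h7

end Pool.Agent.P8H53.FF
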