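import Pool.Agent.P8H82.FF.Stm2
import Pool.Agent.P8H53.FF.EulCore

/-! Project FF, package EULX. -/

namespace Pool.Agent.P8H53.FF

theorem eulx (hc : Pool.Agent.P8H82.JG.S_C0) : Pool.Agent.P8H82.FF.S_EULX :=
  fun K _ _ hs => eulx_core hc (Pool.Agent.Y729.AH.T2 K) hs

end Pool.Agent.P8H53.FF
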