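import Pool.Agent.P8H82.FF.Stm
import Pool.Agent.P8H56.JG.Pts

set_option autoImplicit false

/-!
# Project FF, package GPTS: from Legendre parameters to pairs
-/

namespace Pool.Agent.P8H53.FF

open NumberField IsDedekindDomain Pool.Agent.P8H82.JG
open Pool.Agent.P8H82.WS (lamT S_LAM)
open Pool.Agent.P8H56.JG (yy emb_ne yy_unit reg_iff span_unit sg ff abs_sg)

variable {K : Type} [Field K] [NumberField K]

/-- the property of the pairs, unfolded -/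
def GP (σ τ : K →+* ℝ) (Φ : 𝓞 K → 𝓞 K → Prop) (Z : ℝ) (Q : Set (ℝ × ℝ)) (q : 𝓞 K × 𝓞 K) : Prop :=
  yy q ≠ 0 ∧ Φ q.1 q.2 ∧
    |τ q.2| ≤ |σ q.2| ∧ |σ q.2| < (3 + √5) / 2 * |τ q.2| ∧
    (σ q.1 / σ q.2, τ q.1 / τ q.2) ∈ Q ∧ |σ (yy q) * τ (yy q)| ≤ Z

/-- the property of the triples -/
def TP (σ τ : K →+* ℝ) (Φ : 𝓞 K → 𝓞 K → Prop) (Z : ℝ) (Q : Set (ℝ × ℝ)) (l : K)
    (t : 𝓞 K × 𝓞 K × 𝓞 K) : Prop :=
  Triple t ∧ lamT t = l ∧ Φ t.1 t.2.1 ∧
    (Ideal.absNorm (Ideal.span {t.1 * t.2.1 * t.2.2}) : ℝ) ≤ Z ∧ shp σ τ t ∈ Q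

/-- the package GPTS -/
theorem gpts (hnrm : S_NRM) (hcone : S_CONE) (hlam : S_LAM) : Pool.Agent.P8H82.FF.S_GPTS := by
  intro K _ _ σ τ hG Φ hΦ hΦc Z Q hZ
  have hZ0 : 0 < Z := by linarith
  set l : ℝ := Z ^ ((1 : ℝ) / 6) with hl
  have hl0 : 0 < l := Real.rpow_pos_of_pos hZ0 _
  have hl6 : l ^ 6 = Z := by
    rw [hl, ← Real.rpow_natCast, ← Real.rpow_mul hZ0.le]
    norm_num
  have hset : {q : 𝓞 K × 𝓞 K | q.1 * q.2 * (q.1 + q.2) ≠ 0 ∧ Φ q.1 q.2 ∧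
      emb σ τ l q.1 q.2 ∈ Reg Q} = {q | GP σ τ Φ Z Q q} := by
    ext q
    simp only [Set.mem_ofPred_eq]
    constructor
    · rintro ⟨h1, h2, h3⟩
      have h4 := (reg_iff σ τ hl0 Q q h1).mp h3
      rw [hl6] at h4
      exact ⟨h1, h2, h4⟩
    · rintro ⟨h1, h2, h3⟩
      refine ⟨h1, h2, (reg_iff σ τ hl0 Q q h1).mpr ?_⟩
      rw [hl6]
      exact h3
  rw [hset]
  obtain ⟨hc1, hc2⟩ := hcone K σ τ hG
  obtain ⟨-, -, hl3⟩ := hlam K hG.rank hG.five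
  have hU : ∀ b : 𝓞 K, ∃ u : (𝓞 K)ˣ, b ≠ 0 → |τ ((u * b : 𝓞 K) : K)| ≤ |σ ((u * b : 𝓞 K) : K)| ∧
      |σ ((u * b : 𝓞 K) : K)| < (3 + √5) / 2 * |τ ((u * b : 𝓞 K) : K)| := by
    intro b
    by_cases hb : b = 0
    · exact ⟨1, fun h => absurd hb h⟩
    · obtain ⟨u, hu⟩ := hc1 b hb
      exact ⟨u, fun _ => hu⟩
  choose U hU using hU
  set A : Set K := {x : K | ∃ t : 𝓞 K × 𝓞 K × 𝓞 K, TP σ τ Φ Z Q x t} with hA
  have hAe : {l : K | ∃ t : 𝓞 K × 𝓞 K × 𝓞 K, Triple t ∧ lamT t = l ∧ Φ t.1 t.2.1 ∧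
      (Ideal.absNorm (Ideal.span {t.1 * t.2.1 * t.2.2}) : ℝ) ≤ Z ∧ shp σ τ t ∈ Q} = A := rfl
  rw [hAe]
  have hch : ∀ x : K, ∃ t : 𝓞 K × 𝓞 K × 𝓞 K, x ∈ A → TP σ τ Φ Z Q x t := by
    intro x
    by_cases hx : x ∈ A
    · obtain ⟨t, ht⟩ := hx
      exact ⟨t, fun _ => ht⟩
    · exact ⟨(0, 0, 0), fun h => absurd h hx⟩
  choose T hT using hch
  -- properties of the triples
  have hne : ∀ t : 𝓞 K × 𝓞 K × 𝓞 K, Triple t → t.2.1 ≠ 0 := by
    intro t ht h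
    apply ht.ne
    rw [h]
    ring
  have hmem : ∀ z ∈ A ×ˢ (Set.univ : Set Bool), GP σ τ Φ Z Q (ff U (T z.1, z.2)) := by
    rintro ⟨x, e⟩ ⟨hx, -⟩
    obtain ⟨hTr, -, hTΦ, hTn, htQ⟩ := hT x hx
    show GP σ τ Φ Z Q (ff U (T x, e))
    set t := T x with htdef
    have hb := hne t hTr
    set v : (𝓞 K)ˣ := sg e * U t.2.1 with hv
    have hy := yy_unit v hTr.sum
    have hff : ff U (t, e) = ((v : 𝓞 K) * t.1, (v : 𝓞 K) * t.2.1) := rfl
    rw [hff]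
    have hc := hU t.2.1 hb
    have hvb : ((v : 𝓞 K) * t.2.1 : 𝓞 K) =
        ((sg e : (𝓞 K)ˣ) : 𝓞 K) * ((U t.2.1 : 𝓞 K) * t.2.1) := by
      rw [hv]
      push_cast
      ring
    refine ⟨?_, ?_, ?_, ?_, ?_, ?_⟩
    · rw [hy]
      exact mul_ne_zero (Units.ne_zero _) hTr.ne
    · exact hΦ v _ _ hTΦ
    · rw [hvb, abs_sg, abs_sg]
      exact hc.1
    · rw [hvb, abs_sg, abs_sg]
      exact hc.2
    · have hs := emb_ne σ v.ne_zero
      have ht := emb_ne τ v.ne_zero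
      have e1 : σ ((v : 𝓞 K) * t.1 : 𝓞 K) / σ ((v : 𝓞 K) * t.2.1 : 𝓞 K) = σ t.1 / σ t.2.1 := by
        push_cast
        rw [map_mul, map_mul]
        exact mul_div_mul_left _ _ hs
      have e2 : τ ((v : 𝓞 K) * t.1 : 𝓞 K) / τ ((v : 𝓞 K) * t.2.1 : 𝓞 K) = τ t.1 / τ t.2.1 := by
        push_cast
        rw [map_mul, map_mul]
        exact mul_div_mul_left _ _ ht
      rw [e1, e2]
      exact htQ
    · rw [← hnrm K σ τ hG, hy, span_unit]
      exact hTn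
  have hlamv : ∀ (v : (𝓞 K)ˣ) (t s : 𝓞 K × 𝓞 K × 𝓞 K), Triple t → s.1 = v * t.1 →
      s.2.2 = v * t.2.2 → lamT s = lamT t := by
    intro v t s ht h1 h3
    unfold lamT
    rw [h1, h3]
    push_cast
    have hv0 : ((v : 𝓞 K) : K) ≠ 0 := by
      have := v.ne_zero
      exact_mod_cast this
    rw [← mul_neg]
    exact mul_div_mul_left _ _ hv0
  have hinj : Set.InjOn (fun z : K × Bool => ff U (T z.1, z.2)) (A ×ˢ (Set.univ : Set Bool)) := by
    rintro ⟨x, e⟩ ⟨hx, -⟩ ⟨x', e'⟩ ⟨hx', -⟩ hts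
    obtain ⟨hTr, hTl, -⟩ := hT x hx
    obtain ⟨hS, hSl, -⟩ := hT x' hx'
    have hts' : ff U (T x, e) = ff U (T x', e') := hts
    have h1 : ((sg e * U (T x).2.1 : (𝓞 K)ˣ) : 𝓞 K) * (T x).1 =
        ((sg e' * U (T x').2.1 : (𝓞 K)ˣ) : 𝓞 K) * (T x').1 := congrArg Prod.fst hts'
    have h2 : ((sg e * U (T x).2.1 : (𝓞 K)ˣ) : 𝓞 K) * (T x).2.1 =
        ((sg e' * U (T x').2.1 : (𝓞 K)ˣ) : 𝓞 K) * (T x').2.1 := congrArg Prod.snd hts'
    set v : (𝓞 K)ˣ := (sg e' * U (T x').2.1)⁻¹ * (sg e * U (T x).2.1) with hv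
    have hv1 : (T x').1 = v * (T x).1 := by
      rw [hv, Units.val_mul, mul_assoc, h1, ← mul_assoc, ← Units.val_mul, inv_mul_cancel]
      simp
    have hv2 : (T x').2.1 = v * (T x).2.1 := by
      rw [hv, Units.val_mul, mul_assoc, h2, ← mul_assoc, ← Units.val_mul, inv_mul_cancel]
      simp
    have hv3 : (T x').2.2 = v * (T x).2.2 := by
      have a1 := hTr.sum
      have a2 := hS.sum
      have a3 : (T x').2.2 = -((T x').1 + (T x').2.1) := by linear_combination a2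
      have a4 : (T x).2.2 = -((T x).1 + (T x).2.1) := by linear_combination a1
      rw [a3, a4, hv1, hv2]
      ring
    have hxx : x' = x := by
      rw [← hSl, ← hTl]
      exact hlamv v _ _ hTr hv1 hv3
    subst hxx
    have hb := hne _ hS
    have h3 := mul_right_cancel₀ hb h2
    have h4 : sg e * U (T x').2.1 = sg e' * U (T x').2.1 := Units.ext h3
    have h5 : (sg e : (𝓞 K)ˣ) = sg e' := mul_right_cancel h4
    have h6 : e = e' := by
      unfold sg at h5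
      have hne1 : (1 : (𝓞 K)ˣ) ≠ -1 := by
        intro h
        have := congrArg (fun u : (𝓞 K)ˣ => (u : 𝓞 K)) h
        simp only [Units.val_one, Units.val_neg] at this
        have h7 : (2 : 𝓞 K) = 0 := by linear_combination this
        exact two_ne_zero h7
      cases e <;> cases e'
      · rfl
      · exact absurd (by simpa using h5.symm) hne1
      · exact absurd (by simpa using h5) hne1
      · rfl
    rw [h6]
  have himg : {q | GP σ τ Φ Z Q q} =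
      (fun z : K × Bool => ff U (T z.1, z.2)) '' (A ×ˢ (Set.univ : Set Bool)) := by
    apply Set.eq_of_subset_of_subset
    · intro q hq
      obtain ⟨g1, g3, g4, g5, g6, g7⟩ := hq
      have g2 := hΦc _ _ g3
      set t0 : 𝓞 K × 𝓞 K × 𝓞 K := (q.1, q.2, -(q.1 + q.2)) with ht0
      have hsum : t0.1 + t0.2.1 + t0.2.2 = 0 := by
        rw [ht0]
        ring
      have hy0 : yy q = ((-1 : (𝓞 K)ˣ) : 𝓞 K) * (t0.1 * t0.2.1 * t0.2.2) := by
        rw [ht0]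
        unfold yy
        push_cast
        ring
      have hx0 : t0.1 * t0.2.1 * t0.2.2 ≠ 0 := by
        intro h
        apply g1
        rw [hy0, h, mul_zero]
      have hT0 : Triple t0 := by
        refine ⟨hsum, hx0, ?_⟩
        rw [eq_top_iff, ← g2, Ideal.span_le]
        intro y hy
        simp only [Set.mem_insert_iff, Set.mem_singleton_iff] at hy
        rcases hy with rfl | rfl
        · exact Ideal.subset_span (by simp [ht0])
        · exact Ideal.subset_span (by simp [ht0])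
      have hn0 : (Ideal.absNorm (Ideal.span {t0.1 * t0.2.1 * t0.2.2}) : ℝ) ≤ Z := by
        rw [← span_unit (-1) (t0.1 * t0.2.1 * t0.2.2), ← hy0, hnrm K σ τ hG]
        exact g7
      have hxA : lamT t0 ∈ A := ⟨t0, hT0, rfl, g3, hn0, g6⟩
      obtain ⟨hS, hSl, hSΦ, hSn, hSQ⟩ := hT _ hxA
      obtain ⟨u, hu⟩ := hl3 (T (lamT t0)) t0 hS hT0 hSl
      set s := T (lamT t0) with hsdef
      have hq1 : q.1 = u * s.1 := congrArg Prod.fst hu
      have hq2 : q.2 = u * s.2.1 := congrArg (fun z => z.2.1) hu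
      have hb := hne s hS
      -- the unit
      have hUb := hU s.2.1 hb
      have hcase := hc2 ((U s.2.1 : 𝓞 K) * s.2.1) (u * (U s.2.1)⁻¹)
        (mul_ne_zero (Units.ne_zero _) hb) hUb.1 hUb.2
      have hub : (((u * (U s.2.1)⁻¹ : (𝓞 K)ˣ) : 𝓞 K) * ((U s.2.1 : 𝓞 K) * s.2.1)) = q.2 := by
        rw [hq2, ← mul_assoc, ← Units.val_mul, inv_mul_cancel_right]
      rw [hub] at hcase
      have hpm := hcase g4 g5
      have hpm' : ∃ e : Bool, u = sg e * U s.2.1 := by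
        rcases hpm with h | h
        · exact ⟨true, by unfold sg; simpa using mul_inv_eq_iff_eq_mul.mp h⟩
        · exact ⟨false, by unfold sg; simpa using mul_inv_eq_iff_eq_mul.mp h⟩
      obtain ⟨e, he⟩ := hpm'
      refine ⟨(lamT t0, e), ⟨hxA, trivial⟩, ?_⟩
      refine Prod.ext ?_ ?_
      · change ((sg e * U s.2.1 : (𝓞 K)ˣ) : 𝓞 K) * s.1 = q.1
        rw [← he, hq1]
      · change ((sg e * U s.2.1 : (𝓞 K)ˣ) : 𝓞 K) * s.2.1 = q.2
        rw [← he, hq2]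
    · rintro q ⟨z, hz, rfl⟩
      exact hmem z hz
  rw [himg, Set.ncard_image_of_injOn hinj, Set.ncard_prod]
  have : (Set.univ : Set Bool).ncard = 2 := by
    rw [Set.ncard_univ]
    simp
  rw [this]
  push_cast
  ring

end Pool.Agent.P8H53.FF
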